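import Pool.Agent.Y251.LT.Stm

/-! Project LT (helper251): SAD, the saddle point integral does not vanish. -/

set_option autoImplicit false

open MeasureTheory Complex Metric Set Filter Topology
open scoped Real ComplexConjugate

namespace Pool.Agent.Y950.LT

open Pool.Agent.Y251.LT

lemma exp_big (q X : ℝ) (hq : 10 ^ 8 ≤ q) (hX : q ^ 20 ≤ X) :
    2 * π * Real.exp (-(X / (100 * q ^ 16))) < 1 / (2 * Real.sqrt (X * q ^ 8)) := by
  have hq0 : 0 < q := lt_of_lt_of_le (by norm_num) hq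
  have hX0 : 0 < X := lt_of_lt_of_le (by positivity) hX
  obtain ⟨w, hw⟩ : ∃ w : ℝ, w = X / (100 * q ^ 16) := ⟨_, rfl⟩
  have hXw : X = 100 * q ^ 16 * w := by rw [hw]; field_simp
  have hw0 : 0 < w := by rw [hw]; positivity
  have hw1 : q ^ 4 / 100 ≤ w := by
    rw [hw, div_le_div_iff₀ (by norm_num) (by positivity)]
    calc q ^ 4 * (100 * q ^ 16) = q ^ 20 * 100 := by ring
      _ ≤ X * 100 := by linarith
  have hq4 : (10 ^ 8 : ℝ) ^ 4 ≤ q ^ 4 := pow_le_pow_left₀ (by norm_num) hq 4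
  have hw30 : (10 : ℝ) ^ 30 ≤ w := by
    refine le_trans ?_ hw1
    rw [le_div_iff₀ (by norm_num)]
    refine le_trans (le_of_eq ?_) hq4
    norm_num
  have hA0 : 0 < X * q ^ 8 := by positivity
  have hA1 : 1 ≤ X * q ^ 8 := by
    have h1 : (1 : ℝ) ≤ q := le_trans (by norm_num) hq
    have h2 : 1 ≤ q ^ 20 := one_le_pow₀ h1
    have h3 : 1 ≤ q ^ 8 := one_le_pow₀ h1
    have h4 : 1 ≤ X := h2.trans hX
    calc (1 : ℝ) = 1 * 1 := by norm_num
      _ ≤ X * q ^ 8 := mul_le_mul h4 h3 (by norm_num) (by positivity)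
  have hs : Real.sqrt (X * q ^ 8) ≤ X * q ^ 8 := by
    rw [Real.sqrt_le_left hA0.le]
    nlinarith
  have hAw : X * q ^ 8 ≤ 10 ^ 14 * w ^ 7 := by
    have h5 : q ^ 4 ≤ 100 * w := by linarith
    have h6 : (q ^ 4) ^ 6 ≤ (100 * w) ^ 6 := pow_le_pow_left₀ (by positivity) h5 6
    calc X * q ^ 8 = 100 * w * (q ^ 4) ^ 6 := by rw [hXw]; ring
      _ ≤ 100 * w * (100 * w) ^ 6 := by gcongr
      _ = 10 ^ 14 * w ^ 7 := by ring
  have hexp : w ^ 8 / 40320 ≤ Real.exp w := by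
    have h7 := Real.pow_div_factorial_le_exp w hw0.le 8
    have h8 : (((8 : ℕ).factorial : ℕ) : ℝ) = 40320 := by norm_num [Nat.factorial]
    rw [h8] at h7
    exact h7
  have hkey : 4 * π * Real.sqrt (X * q ^ 8) < Real.exp w := by
    have hpi : π ≤ 4 := Real.pi_le_four
    have h9 : 4 * π * Real.sqrt (X * q ^ 8) ≤ 4 * 4 * (10 ^ 14 * w ^ 7) :=
      mul_le_mul (by linarith) (hs.trans hAw) (Real.sqrt_nonneg _) (by norm_num)
    have h10 : 4 * 4 * (10 ^ 14 * w ^ 7) < w ^ 8 / 40320 := by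
      rw [lt_div_iff₀ (by norm_num)]
      have h11 : 0 < w ^ 7 := by positivity
      calc 4 * 4 * (10 ^ 14 * w ^ 7) * 40320 = (4 * 4 * 10 ^ 14 * 40320) * w ^ 7 := by ring
        _ < 10 ^ 30 * w ^ 7 := mul_lt_mul_of_pos_right (by norm_num) h11
        _ ≤ w * w ^ 7 := mul_le_mul_of_nonneg_right hw30 h11.le
        _ = w ^ 8 := by ring
    exact lt_of_le_of_lt h9 (lt_of_lt_of_le h10 hexp)
  rw [← hw, Real.exp_neg, lt_div_iff₀ (mul_pos two_pos (Real.sqrt_pos.2 hA0))]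
  have h12 : 2 * π * (Real.exp w)⁻¹ * (2 * Real.sqrt (X * q ^ 8)) =
      (4 * π * Real.sqrt (X * q ^ 8)) / Real.exp w := by
    field_simp
    ring
  rw [h12, div_lt_one (Real.exp_pos w)]
  exact hkey

lemma re_exp (X y : ℝ) : ((X : ℂ) * Complex.exp (-((y : ℂ) * I))).re = X * Real.cos y := by
  rw [Complex.re_ofReal_mul]
  have h1 : -((y : ℂ) * I) = ((-y : ℝ) : ℂ) * I := by push_cast; ring
  rw [h1, Complex.exp_ofReal_mul_I_re, Real.cos_neg]

lemma cos_bd (y : ℝ) (hy : |y| ≤ π) : Real.cos y - 1 ≤ -(0.2 * y ^ 2) := by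
  have h1 := Real.cos_le_one_sub_mul_cos_sq hy
  have hpi : π < 3.15 := Real.pi_lt_d2
  have hpi0 := Real.pi_pos
  have h2 : (0.2 : ℝ) ≤ 2 / π ^ 2 := by
    rw [le_div_iff₀ (by positivity)]
    nlinarith
  have h3 : 0.2 * y ^ 2 ≤ 2 / π ^ 2 * y ^ 2 := mul_le_mul_of_nonneg_right h2 (sq_nonneg y)
  linarith

/-- the value of the second term at the saddle point -/
lemma TT_zero_re (q X : ℝ) (p : ℂ → ℂ) (hq : 10 ^ 8 ≤ q) (hX0 : 0 < X) (hp : Loc q p) :
    X / q ^ 8 - X / q ^ 8 * (40 / q ^ 5) ≤ (TT q X p 0).re := by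
  have hq0 : 0 < q := lt_of_lt_of_le (by norm_num) hq
  have hb := hp.b1 0 (by rw [norm_zero]; positivity)
  obtain ⟨b, hbd⟩ : ∃ b : ℂ, b = deriv p 0 := ⟨_, rfl⟩
  rw [← hbd] at hb
  have hT : TT q X p 0 = (X : ℂ) / ((q : ℂ) ^ 8 + b) := by
    unfold TT
    rw [← hbd]
    simp [hp.zero]
  have hK0 : 0 < q ^ 8 := by positivity
  -- the denominator
  have h32 : 32 * q ^ 3 ≤ q ^ 8 * (1 / 5) := by
    have h5 : (10 ^ 8 : ℝ) ^ 5 ≤ q ^ 5 := pow_le_pow_left₀ (by norm_num) hq 5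
    have h6 : (160 : ℝ) ≤ q ^ 5 := le_trans (by norm_num) h5
    have h7 : 0 < q ^ 3 := by positivity
    calc 32 * q ^ 3 = 160 * q ^ 3 * (1 / 5) := by ring
      _ ≤ q ^ 5 * q ^ 3 * (1 / 5) := by gcongr
      _ = q ^ 8 * (1 / 5) := by ring
  have hden : q ^ 8 * (4 / 5) ≤ ‖(q : ℂ) ^ 8 + b‖ := by
    have h8 : ‖(q : ℂ) ^ 8‖ = q ^ 8 := by
      rw [norm_pow, Complex.norm_real, Real.norm_eq_abs, abs_of_pos hq0]
    have h9 : ‖(q : ℂ) ^ 8‖ ≤ ‖(q : ℂ) ^ 8 + b‖ + ‖b‖ := by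
      calc ‖(q : ℂ) ^ 8‖ = ‖((q : ℂ) ^ 8 + b) - b‖ := by rw [add_sub_cancel_right]
        _ ≤ _ := norm_sub_le _ _
    rw [h8] at h9
    linarith
  have hden0 : 0 < ‖(q : ℂ) ^ 8 + b‖ := lt_of_lt_of_le (by positivity) hden
  have hne : (q : ℂ) ^ 8 + b ≠ 0 := norm_pos_iff.1 hden0
  have hqne : (q : ℂ) ≠ 0 := by exact_mod_cast hq0.ne'
  have hdiff : (X : ℂ) / ((q : ℂ) ^ 8 + b) = ((X / q ^ 8 : ℝ) : ℂ) -
      (X : ℂ) * b / ((q : ℂ) ^ 8 * ((q : ℂ) ^ 8 + b)) := by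
    push_cast
    field_simp
    ring
  have hnorm : ‖(X : ℂ) * b / ((q : ℂ) ^ 8 * ((q : ℂ) ^ 8 + b))‖ ≤ X / q ^ 8 * (40 / q ^ 5) := by
    rw [norm_div, norm_mul, norm_mul, Complex.norm_real, Real.norm_eq_abs, abs_of_pos hX0,
      norm_pow, Complex.norm_real, Real.norm_eq_abs, abs_of_pos hq0]
    rw [div_le_iff₀ (by positivity)]
    calc X * ‖b‖ ≤ X * (32 * q ^ 3) := by gcongr
      _ = X / q ^ 8 * (40 / q ^ 5) * (q ^ 8 * (q ^ 8 * (4 / 5))) := by
        field_simp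
        norm_num
      _ ≤ X / q ^ 8 * (40 / q ^ 5) * (q ^ 8 * ‖(q : ℂ) ^ 8 + b‖) := by gcongr
  rw [hT, hdiff, Complex.sub_re, Complex.ofReal_re]
  have h10 := (Complex.re_le_norm ((X : ℂ) * b / ((q : ℂ) ^ 8 * ((q : ℂ) ^ 8 + b)))).trans hnorm
  linarith

/-- the exponent away from the saddle point -/
lemma re_bound (q X : ℝ) (p : ℂ → ℂ) (T : ℝ → ℂ) (hq : 10 ^ 8 ≤ q) (hX0 : 0 < X)
    (hp : Loc q p)
    (hT : ∀ y : ℝ, |y| ≤ 1 / (8 * q ^ 6) → T y = TT q X p y)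
    (hnear : ∀ y : ℝ, |y| ≤ 1 / (16 * q ^ 6) →
      (TT q X p y).re ≤ (TT q X p 0).re + 10 ^ 5 * X / q ^ 18)
    (hfar : ∀ y : ℝ, |y| ≤ π → ‖T y‖ ≤ X / q ^ 8 * (1 + 1000 / q ^ 5))
    (y : ℝ) (hy1 : 1 / (4 * q ^ 8) ≤ |y|) (hy2 : |y| ≤ π) :
    (((X : ℂ) * Complex.exp (-((y : ℂ) * I)) + T y) - ((X : ℂ) + TT q X p 0)).re ≤
      -(X / (100 * q ^ 16)) := by
  have hq0 : 0 < q := lt_of_lt_of_le (by norm_num) hq
  rw [Complex.sub_re, Complex.add_re, Complex.add_re, re_exp, Complex.ofReal_re]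
  have hc := mul_le_mul_of_nonneg_left (cos_bd y hy2) hX0.le
  have hq2 : (10 ^ 8 : ℝ) ^ 2 ≤ q ^ 2 := pow_le_pow_left₀ (by norm_num) hq 2
  have hq4 : (10 ^ 8 : ℝ) ^ 4 ≤ q ^ 4 := pow_le_pow_left₀ (by norm_num) hq 4
  rcases le_or_gt |y| (1 / (16 * q ^ 6)) with h | h
  · -- close to the saddle point
    have h1 : T y = TT q X p y := by
      refine hT y (h.trans ?_)
      gcongr
      norm_num
    rw [h1]
    have h2 := hnear y h
    have h3 : (1 / (4 * q ^ 8)) ^ 2 ≤ y ^ 2 := by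
      rw [← sq_abs y]
      exact pow_le_pow_left₀ (by positivity) hy1 2
    obtain ⟨u, hu⟩ : ∃ u : ℝ, u = X / q ^ 16 := ⟨_, rfl⟩
    have hu0 : 0 < u := by rw [hu]; positivity
    have h4 : X * (0.2 * (1 / (4 * q ^ 8)) ^ 2) = 0.0125 * u := by
      rw [hu]; field_simp; norm_num
    have h5 : X * (0.2 * (1 / (4 * q ^ 8)) ^ 2) ≤ X * (0.2 * y ^ 2) := by gcongr
    have h6 : 10 ^ 5 * X / q ^ 18 ≤ 0.001 * u := by
      have h7 : 10 ^ 5 * X / q ^ 18 = 10 ^ 5 / q ^ 2 * u := by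
        rw [hu]; field_simp
      rw [h7]
      refine mul_le_mul_of_nonneg_right ?_ hu0.le
      rw [div_le_iff₀ (by positivity)]
      refine le_trans ?_ (mul_le_mul_of_nonneg_left hq2 (by norm_num))
      norm_num
    have h8 : X / (100 * q ^ 16) = 0.01 * u := by
      rw [hu]; field_simp; norm_num
    rw [h8]
    have h9 : X * (Real.cos y - 1) ≤ -(0.0125 * u) := by
      calc X * (Real.cos y - 1) ≤ X * -(0.2 * y ^ 2) := hc
        _ = -(X * (0.2 * y ^ 2)) := by ring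
        _ ≤ -(X * (0.2 * (1 / (4 * q ^ 8)) ^ 2)) := neg_le_neg h5
        _ = -(0.0125 * u) := by rw [h4]
    have h10 : X * (Real.cos y - 1) = X * Real.cos y - X := by ring
    linarith
  · -- far from the saddle point
    have h1 := (Complex.re_le_norm (T y)).trans (hfar y hy2)
    have h2 := TT_zero_re q X p hq hX0 hp
    have h3 : (1 / (16 * q ^ 6)) ^ 2 ≤ y ^ 2 := by
      rw [← sq_abs y]
      exact pow_le_pow_left₀ (by positivity) h.le 2
    obtain ⟨s, hs⟩ : ∃ s : ℝ, s = X / q ^ 12 := ⟨_, rfl⟩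
    have hs0 : 0 < s := by rw [hs]; positivity
    have h4 : X * (0.2 * (1 / (16 * q ^ 6)) ^ 2) = 0.00078125 * s := by
      rw [hs]; field_simp; norm_num
    have h5 : X * (0.2 * (1 / (16 * q ^ 6)) ^ 2) ≤ X * (0.2 * y ^ 2) := by gcongr
    have h9 : X * (Real.cos y - 1) ≤ -(0.00078125 * s) := by
      calc X * (Real.cos y - 1) ≤ X * -(0.2 * y ^ 2) := hc
        _ = -(X * (0.2 * y ^ 2)) := by ring
        _ ≤ -(X * (0.2 * (1 / (16 * q ^ 6)) ^ 2)) := neg_le_neg h5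
        _ = -(0.00078125 * s) := by rw [h4]
    have h6 : X / q ^ 8 * (1 + 1000 / q ^ 5) - (X / q ^ 8 - X / q ^ 8 * (40 / q ^ 5)) =
        1040 / q * s := by
      rw [hs]; field_simp; ring
    have h7 : 1040 / q * s ≤ 0.0001 * s := by
      refine mul_le_mul_of_nonneg_right ?_ hs0.le
      rw [div_le_iff₀ hq0]
      linarith
    have h8 : X / (100 * q ^ 16) ≤ 0.0001 * s := by
      have h11 : X / (100 * q ^ 16) = 0.01 / q ^ 4 * s := by
        rw [hs]; field_simp; norm_num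
      rw [h11]
      refine mul_le_mul_of_nonneg_right ?_ hs0.le
      rw [div_le_iff₀ (by positivity)]
      refine le_trans ?_ (mul_le_mul_of_nonneg_left hq4 (by norm_num))
      norm_num
    have h10 : X * (Real.cos y - 1) = X * Real.cos y - X := by ring
    linarith

theorem sad (h1 : S_NEAR) (h2 : S_CEN) (h3 : S_LAP) : S_SAD := by
  intro q X p T hq hX hp hTc hT hal hfar hzero
  have hq0 : 0 < q := lt_of_lt_of_le (by norm_num) hq
  have hq1 : (1 : ℝ) ≤ q := le_trans (by norm_num) hq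
  have hX0 : 0 < X := lt_of_lt_of_le (by positivity) hX
  have hnear := h1 q X p hq hX0 hp hal
  have hcen := h2 q X p hq hX0 hp
  obtain ⟨a, ha⟩ : ∃ a : ℝ, a = 1 / (4 * q ^ 8) := ⟨_, rfl⟩
  have ha0 : 0 < a := by rw [ha]; positivity
  have hq8 : (10 ^ 8 : ℝ) ≤ q ^ 8 := le_trans hq (le_self_pow₀ hq1 (by norm_num))
  have ha10 : a ≤ 1 / 10 := by
    rw [ha]
    refine one_div_le_one_div_of_le (by norm_num) ?_
    linarith
  have hapi : a ≤ π := ha10.trans (by linarith [Real.pi_gt_three])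
  have ha8 : a ≤ 1 / (8 * q ^ 6) := by
    rw [ha]
    refine one_div_le_one_div_of_le (by positivity) ?_
    have h4 : (10 ^ 8 : ℝ) ^ 2 ≤ q ^ 2 := pow_le_pow_left₀ (by norm_num) hq 2
    have h5 : (2 : ℝ) ≤ q ^ 2 := le_trans (by norm_num) h4
    calc 8 * q ^ 6 = 4 * 2 * q ^ 6 := by ring
      _ ≤ 4 * q ^ 2 * q ^ 6 := by gcongr
      _ = 4 * q ^ 8 := by ring
  -- the function
  obtain ⟨E, hE⟩ : ∃ E : ℝ → ℂ, E = fun y : ℝ => ((X : ℂ) * Complex.exp (-((y : ℂ) * I)) + T y) -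
    ((X : ℂ) + TT q X p 0) := ⟨_, rfl⟩
  have hEc : Continuous E := by rw [hE]; fun_prop
  obtain ⟨F, hF⟩ : ∃ F : ℝ → ℂ, F = fun y : ℝ => Complex.exp (E y) * Complex.exp (-((y : ℂ) * I)) :=
    ⟨_, rfl⟩
  have hFc : Continuous F := by rw [hF]; fun_prop
  have hint : ∀ c d : ℝ, IntervalIntegrable F volume c d := fun c d => hFc.intervalIntegrable c d
  -- the middle
  have hmid : 1 / (2 * Real.sqrt (X * q ^ 8)) ≤ ‖∫ y in (-a)..a, F y‖ := by
    rw [hF]
    refine h3 (X * q ^ 8) a E (by positivity) ha0 ha10 ?_ hEc.continuousOn ?_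
    · rw [ha]
      have h6 : X * q ^ 8 * (1 / (4 * q ^ 8)) ^ 2 = X / (16 * q ^ 8) := by
        field_simp; norm_num
      rw [h6, le_div_iff₀ (by positivity)]
      have h7 : (10 ^ 8 : ℝ) ≤ q ^ 12 := le_trans hq (le_self_pow₀ hq1 (by norm_num))
      calc 100 * (16 * q ^ 8) = 1600 * q ^ 8 := by ring
        _ ≤ q ^ 12 * q ^ 8 := by
          refine mul_le_mul_of_nonneg_right (le_trans (by norm_num) h7) (by positivity)
        _ = q ^ 20 := by ring
        _ ≤ X := hX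
    · intro y hy
      have hya : |y| ≤ a := abs_le.2 hy
      have h8 := hcen y (by rw [← ha]; exact hya)
      rw [hE]
      simp only
      rw [hT y (hya.trans ha8)]
      exact h8
  -- the outer parts
  have hout : ∀ y : ℝ, a ≤ |y| → |y| ≤ π → ‖F y‖ ≤ Real.exp (-(X / (100 * q ^ 16))) := by
    intro y hy1 hy2
    have h9 := re_bound q X p T hq hX0 hp hT hnear hfar y (by rw [← ha]; exact hy1) hy2
    rw [hF]
    simp only
    rw [norm_mul, Complex.norm_exp, Complex.norm_exp]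
    have h10 : (-((y : ℂ) * I)).re = 0 := by simp
    rw [h10, Real.exp_zero, mul_one]
    refine Real.exp_le_exp.2 ?_
    rw [hE]
    exact h9
  have hr : ‖∫ y in a..π, F y‖ ≤ Real.exp (-(X / (100 * q ^ 16))) * |π - a| := by
    refine intervalIntegral.norm_integral_le_of_norm_le_const fun y hy => ?_
    rw [uIoc_of_le hapi] at hy
    have hy0 : 0 < y := ha0.trans hy.1
    exact hout y (by rw [abs_of_pos hy0]; exact hy.1.le) (by rw [abs_of_pos hy0]; exact hy.2)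
  have hl : ‖∫ y in (-π)..(-a), F y‖ ≤ Real.exp (-(X / (100 * q ^ 16))) * |(-a) - (-π)| := by
    refine intervalIntegral.norm_integral_le_of_norm_le_const fun y hy => ?_
    rw [uIoc_of_le (neg_le_neg hapi)] at hy
    have hy0 : y < 0 := lt_of_le_of_lt hy.2 (neg_lt_zero.2 ha0)
    refine hout y ?_ ?_
    · rw [abs_of_neg hy0]; linarith [hy.2]
    · rw [abs_of_neg hy0]; linarith [hy.1]
  -- the total
  have htot : ∫ y in (-π)..π, F y = 0 := by
    have h11 : ∀ y : ℝ, Complex.exp ((X : ℂ) * Complex.exp (-((y : ℂ) * I)) + T y) *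
        Complex.exp (-((y : ℂ) * I)) = Complex.exp ((X : ℂ) + TT q X p 0) * F y := by
      intro y
      rw [hF, hE]
      simp only
      have h16 : Complex.exp ((X : ℂ) * Complex.exp (-((y : ℂ) * I)) + T y) =
          Complex.exp ((X : ℂ) + TT q X p 0) *
            Complex.exp (((X : ℂ) * Complex.exp (-((y : ℂ) * I)) + T y) -
              ((X : ℂ) + TT q X p 0)) := by
        rw [← Complex.exp_add]
        congr 1
        ring
      rw [h16, mul_assoc]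
    have h12 : ∫ y in (-π)..π, Complex.exp ((X : ℂ) + TT q X p 0) * F y = 0 := by
      rw [← hzero]
      exact intervalIntegral.integral_congr fun y _ => (h11 y).symm
    rw [intervalIntegral.integral_const_mul] at h12
    exact (mul_eq_zero.1 h12).resolve_left (Complex.exp_ne_zero _)
  have hsplit : ∫ y in (-π)..π, F y =
      (∫ y in (-π)..(-a), F y) + (∫ y in (-a)..a, F y) + ∫ y in a..π, F y := by
    rw [intervalIntegral.integral_add_adjacent_intervals (hint _ _) (hint _ _),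
      intervalIntegral.integral_add_adjacent_intervals (hint _ _) (hint _ _)]
  rw [htot] at hsplit
  have hm : ∫ y in (-a)..a, F y = -((∫ y in (-π)..(-a), F y) + ∫ y in a..π, F y) := by
    linear_combination -hsplit
  have h13 : ‖∫ y in (-a)..a, F y‖ ≤ 2 * π * Real.exp (-(X / (100 * q ^ 16))) := by
    rw [hm, norm_neg]
    have he := Real.exp_pos (-(X / (100 * q ^ 16)))
    have h14 : |π - a| ≤ π := by rw [abs_of_nonneg (by linarith)]; linarith
    have h15 : |(-a) - (-π)| ≤ π := by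
      rw [show (-a) - (-π) = π - a by ring]; exact h14
    calc ‖(∫ y in (-π)..(-a), F y) + ∫ y in a..π, F y‖
        ≤ ‖∫ y in (-π)..(-a), F y‖ + ‖∫ y in a..π, F y‖ := norm_add_le _ _
      _ ≤ Real.exp (-(X / (100 * q ^ 16))) * π + Real.exp (-(X / (100 * q ^ 16))) * π :=
        add_le_add (hl.trans (mul_le_mul_of_nonneg_left h15 he.le))
          (hr.trans (mul_le_mul_of_nonneg_left h14 he.le))
      _ = 2 * π * Real.exp (-(X / (100 * q ^ 16))) := by ring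
  exact absurd (lt_of_le_of_lt (hmid.trans h13) (exp_big q X hq hX)) (lt_irrefl _)

end Pool.Agent.Y950.LT
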